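import Pool.Agent.Y269.RK.Trace

/-!
The algebra is stably finite and not a matrix algebra (job RK-FIN).
-/

set_option autoImplicit false

namespace Pool.Agent.Y776.RK

open scoped ENNReal
open Pool.Agent.Helper133.BT Pool.Agent.Helper133.BU Filter Topology
open Pool.Agent.Y269.RK

noncomputable section

/-- some data for a limit trace -/
def D0 : SD where
  L := fun k => k
  p := fun _ => Classical.arbitrary PT
  hL := tendsto_id

variable {E : Type} [CStarAlgebra E] (M : Amb E)

/-- the square of the trace seminorm -/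
def tt (x : ↥(A0 M)) : ℝ := (trc M D0 (star (x : E) * (x : E))).re

lemma tt_nonneg (x : ↥(A0 M)) : 0 ≤ tt M x := trc_pos M D0 _

lemma tt_star (x : ↥(A0 M)) : tt M (star x) = tt M x := by
  unfold tt
  have h1 : ((star x : ↥(A0 M)) : E) = star (x : E) := rfl
  rw [h1, star_star]
  rw [trc_comm M D0 x.2 (star_mem x.2)]

lemma tt_mul_le (y x : ↥(A0 M)) : tt M (y * x) ≤ ‖(y : E)‖ ^ 2 * tt M x := by
  unfold tt
  have h1 : ((y * x : ↥(A0 M)) : E) = (y : E) * (x : E) := rfl
  rw [h1]
  exact trc_mul_le M D0 _ _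

lemma tt_add_sub (x y : ↥(A0 M)) : tt M (x + y) + tt M (x - y) = 2 * tt M x + 2 * tt M y := by
  unfold tt
  have h1 : ((x + y : ↥(A0 M)) : E) = (x : E) + (y : E) := rfl
  have h2 : ((x - y : ↥(A0 M)) : E) = (x : E) - (y : E) := rfl
  rw [h1, h2, ← Complex.add_re, ← trc_add]
  have h3 : star ((x : E) + (y : E)) * ((x : E) + (y : E)) +
      star ((x : E) - (y : E)) * ((x : E) - (y : E)) =
      (2 : ℂ) • (star (x : E) * (x : E)) + (2 : ℂ) • (star (y : E) * (y : E)) := by
    rw [star_add, star_sub, two_smul, two_smul]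
    noncomm_ring
  rw [h3, trc_add, trc_smul, trc_smul, Complex.add_re]
  simp

lemma tt_neg (x : ↥(A0 M)) : tt M (-x) = tt M x := by
  unfold tt
  have h1 : ((-x : ↥(A0 M)) : E) = -(x : E) := rfl
  rw [h1, star_neg, neg_mul_neg]

lemma tt_zero : tt M 0 = 0 := by
  unfold tt
  have h1 : ((0 : ↥(A0 M)) : E) = 0 := rfl
  rw [h1, mul_zero, trc_zero]
  rfl

lemma tt_one : tt M 1 = 1 := by
  unfold tt
  have h1 : ((1 : ↥(A0 M)) : E) = 1 := rfl
  rw [h1, mul_one, star_one, trc_one]
  rfl

lemma tt_mul_left {x y : ↥(A0 M)} (hy : tt M y = 0) : tt M (x * y) = 0 := by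
  refine le_antisymm ?_ (tt_nonneg M _)
  refine (tt_mul_le M x y).trans ?_
  rw [hy, mul_zero]

lemma tt_mul_right {x y : ↥(A0 M)} (hx : tt M x = 0) : tt M (x * y) = 0 := by
  rw [← tt_star, star_mul]
  apply tt_mul_left
  rwa [tt_star]

/-- the null ideal of the trace -/
def NI : TwoSidedIdeal ↥(A0 M) :=
  TwoSidedIdeal.mk' {x : ↥(A0 M) | tt M x = 0} (tt_zero M)
    (fun {x y} hx hy => by
      have h1 := tt_add_sub M x y
      have h2 := tt_nonneg M (x + y)
      have h3 := tt_nonneg M (x - y)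
      have hx' : tt M x = 0 := hx
      have hy' : tt M y = 0 := hy
      show tt M (x + y) = 0
      rw [hx', hy'] at h1
      linarith)
    (fun {x} hx => by
      show tt M (-x) = 0
      rw [tt_neg]
      exact hx)
    (fun {x y} hy => tt_mul_left M hy)
    (fun {x y} hx => tt_mul_right M hx)

/-- the trace is faithful -/
theorem faithful {x : ↥(A0 M)} (hx : tt M x = 0) : x = 0 := by
  by_contra h
  have hx' : x ∈ NI M := by
    unfold NI
    rw [TwoSidedIdeal.mem_mk']
    exact hx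
  have h1 := ideal_eq_top M (NI M) hx' h
  unfold NI at h1
  rw [TwoSidedIdeal.mem_mk'] at h1
  have h2 : tt M 1 = 0 := h1
  rw [tt_one] at h2
  exact one_ne_zero h2

/-- the trace of a matrix -/
def tm {n : ℕ} (w : Matrix (Fin n) (Fin n) ↥(A0 M)) : ℂ := ∑ i, trc M D0 (w i i : E)

lemma coe_sum {ι : Type} (s : Finset ι) (f : ι → ↥(A0 M)) :
    ((∑ i ∈ s, f i : ↥(A0 M)) : E) = ∑ i ∈ s, (f i : E) :=
  AddSubmonoidClass.coe_finsetSum f s

lemma tm_mul {n : ℕ} (v w : Matrix (Fin n) (Fin n) ↥(A0 M)) :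
    tm M (v * w) = ∑ i, ∑ j, trc M D0 ((v i j : E) * (w j i : E)) := by
  unfold tm
  refine Finset.sum_congr rfl fun i _ => ?_
  rw [Matrix.mul_apply, coe_sum, trc_sum]
  rfl

lemma tm_comm {n : ℕ} (v w : Matrix (Fin n) (Fin n) ↥(A0 M)) : tm M (v * w) = tm M (w * v) := by
  rw [tm_mul, tm_mul, Finset.sum_comm]
  refine Finset.sum_congr rfl fun i _ => Finset.sum_congr rfl fun j _ => ?_
  exact trc_comm M D0 (v j i).2 (w i j).2

lemma tm_sub {n : ℕ} (v w : Matrix (Fin n) (Fin n) ↥(A0 M)) : tm M (v - w) = tm M v - tm M w := by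
  unfold tm
  rw [← Finset.sum_sub_distrib]
  refine Finset.sum_congr rfl fun i _ => ?_
  rw [Matrix.sub_apply]
  exact trc_sub M D0 _ _

lemma tm_star_mul {n : ℕ} (v : Matrix (Fin n) (Fin n) ↥(A0 M)) :
    (tm M (star v * v)).re = ∑ i, ∑ j, tt M (v j i) := by
  rw [tm_mul, Complex.re_sum]
  refine Finset.sum_congr rfl fun i _ => ?_
  rw [Complex.re_sum]
  refine Finset.sum_congr rfl fun j _ => ?_
  rfl

theorem stably_finite : ∀ (n : ℕ) (v : Matrix (Fin n) (Fin n) ↥(A0 M)),
    star v * v = 1 → v * star v = 1 := by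
  intro n v hv
  set e : Matrix (Fin n) (Fin n) ↥(A0 M) := 1 - v * star v with he
  have h1 : star e * e = e := by
    have h2 : star e = e := by
      rw [he, star_sub, star_mul, star_star, star_one]
    rw [h2, he]
    have h3 : v * star v * (v * star v) = v * star v := by
      calc v * star v * (v * star v) = v * (star v * v) * star v := by
            simp only [mul_assoc]
        _ = v * star v := by rw [hv, mul_one]
    rw [mul_sub, sub_mul, sub_mul, h3]
    simp
  have h4 : tm M e = 0 := by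
    rw [he, tm_sub, tm_comm, hv, sub_self]
  have h5 : ∑ i, ∑ j, tt M (e j i) = 0 := by
    rw [← tm_star_mul, h1, h4]
    rfl
  have h6 : e = 0 := by
    ext1 j i
    apply faithful M
    have h7 := (Finset.sum_eq_zero_iff_of_nonneg
      (fun i _ => Finset.sum_nonneg fun j _ => tt_nonneg M (e j i))).mp h5 i (Finset.mem_univ _)
    exact (Finset.sum_eq_zero_iff_of_nonneg (fun j _ => tt_nonneg M (e j i))).mp h7 j
      (Finset.mem_univ _)
  exact (sub_eq_zero.mp (he.symm.trans h6)).symm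

/-! ### not a matrix algebra -/

lemma diag_mem {L a : ℕ} (ha : a < nz L) : M.of (TC L onef a a) ∈ A0 M := by
  apply mem_A0
  rw [diag_eq M]
  refine sum_mem fun r _ => ?_
  exact mul_mem (mul_mem (gen_mem M ha (nz_pos L) r (fun _ => 0)) (e00_mem M L))
    (gen_mem M (nz_pos L) ha (fun _ => 0) r)

/-- the diagonal matrix units -/
def dg (L : ℕ) (a : Fin (nz L)) : ↥(A0 M) := ⟨M.of (TC L onef a a), diag_mem M a.2⟩

lemma ent_sum' {ι : Type} (s : Finset ι) (f : ι → BH) (i j : ℕ) :
    ent (∑ a ∈ s, f a) i j = ∑ a ∈ s, ent (f a) i j := by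
  classical
  induction s using Finset.induction_on with
  | empty => simp [ent_zero]
  | insert x s hx ih => rw [Finset.sum_insert hx, Finset.sum_insert hx, ent_add, ih]

lemma dg_indep (L : ℕ) : LinearIndependent ℂ (dg M L) := by
  rw [Fintype.linearIndependent_iff]
  intro c hc i
  have h1 : M.toC ((∑ a, c a • dg M L a : ↥(A0 M)) : E) = 0 := by
    rw [hc]
    exact toC_zero M
  rw [coe_sum, toC_sum] at h1
  have h2 : ∀ a : Fin (nz L), M.toC ((c a • dg M L a : ↥(A0 M)) : E) = c a • TC L onef a a := by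
    intro a
    show M.toC (c a • M.of (TC L onef a a)) = _
    rw [toC_smul, toC_of M (BF.TC onef_FN _ _)]
  rw [Finset.sum_congr rfl fun a _ => h2 a] at h1
  obtain ⟨p⟩ : Nonempty PT := inferInstance
  have h3 : ent ((∑ a : Fin (nz L), c a • TC L onef a a) p) i i = 0 := by
    rw [h1, Pi.zero_apply, ent_zero]
  rw [Finset.sum_apply, ent_sum'] at h3
  rw [Finset.sum_eq_single i] at h3
  · rw [Pi.smul_apply, ent_smul, TC_ent onef_FN p i.2, if_pos ⟨rfl, rfl⟩] at h3
    simpa [onef] using h3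
  · intro b _ hb
    rw [Pi.smul_apply, ent_smul, TC_ent onef_FN p i.2, if_neg, mul_zero]
    intro h
    exact hb (Fin.ext h.1.symm)
  · intro h
    exact absurd (Finset.mem_univ _) h

theorem nonelem : ∀ n : ℕ, IsEmpty (↥(A0 M) ≃⋆ₐ[ℂ] Matrix (Fin n) (Fin n) ℂ) := by
  intro n
  refine ⟨fun φ => ?_⟩
  have h1 := dg_indep M (n * n)
  let f : ↥(A0 M) →ₗ[ℂ] Matrix (Fin n) (Fin n) ℂ :=
    { toFun := fun x => φ x
      map_add' := fun x y => map_add φ x y
      map_smul' := fun c x => map_smul φ c x }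
  have hf : LinearMap.ker f = ⊥ := by
    rw [LinearMap.ker_eq_bot]
    exact φ.injective
  have h2 := (h1.map' f hf).fintype_card_le_finrank
  rw [Fintype.card_fin, Module.finrank_matrix, Fintype.card_fin, Module.finrank_self, mul_one] at h2
  exact absurd h2 (not_le.mpr (lt_nz (n * n)))

end

end Pool.Agent.Y776.RK
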